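import Pool.Agent.H629.CG.Stm

/-!
# Kahane inequality for powers of sums of lognormals
-/

set_option autoImplicit false

namespace Pool.Agent.H980.CG.KFD

open MeasureTheory ProbabilityTheory Filter Topology Set
open scoped ENNReal NNReal
open Pool.Agent.H629.CG

lemma rpow_bd (w e m : ℝ) (hw : 0 < w) (he : |e| ≤ m) : w ^ e ≤ w ^ m + w ^ (-m) := by
  have h1 : 0 ≤ w ^ m := Real.rpow_nonneg hw.le _
  have h2 : 0 ≤ w ^ (-m) := Real.rpow_nonneg hw.le _
  have h3 := abs_le.1 he
  rcases le_total 1 w with h | h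
  · have h4 : w ^ e ≤ w ^ m := Real.rpow_le_rpow_of_exponent_le h h3.2
    linarith
  · have h4 : w ^ e ≤ w ^ (-m) := Real.rpow_le_rpow_of_exponent_ge hw h h3.1
    linarith

lemma good_pow (s a : ℝ) (hs : |s| ≤ 1) : Good (fun w => s * w ^ a) (fun w => s * (a * w ^ (a - 1)))
    (fun w => s * (a * ((a - 1) * w ^ (a - 1 - 1)))) where
  d1 := by
    intro w hw
    exact (Real.hasDerivAt_rpow_const (Or.inl hw.ne')).const_mul s
  d2 := by
    intro w hw
    exact ((Real.hasDerivAt_rpow_const (p := a - 1) (Or.inl hw.ne')).const_mul a).const_mul s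
  c2 := by
    intro w hw
    have hw' : w ≠ 0 := ne_of_gt hw
    exact ((((Real.continuousAt_rpow_const w (a - 1 - 1) (Or.inl hw')).const_mul (a - 1)).const_mul
      a).const_mul s).continuousWithinAt
  bd := by
    refine ⟨1 + |a| + |a * (a - 1)|, |a| + 2, by positivity, by positivity, ?_⟩
    intro w hw
    have hm0 : 0 ≤ w ^ (|a| + 2) + w ^ (-(|a| + 2)) :=
      add_nonneg (Real.rpow_nonneg hw.le _) (Real.rpow_nonneg hw.le _)
    have key : ∀ c e : ℝ, |e| ≤ |a| + 2 → |s * (c * w ^ e)| ≤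
        |c| * (w ^ (|a| + 2) + w ^ (-(|a| + 2))) := by
      intro c e he
      rw [abs_mul, abs_mul, abs_of_nonneg (Real.rpow_nonneg hw.le e)]
      have h1 : w ^ e ≤ _ := rpow_bd w e (|a| + 2) hw he
      have h2 : |c| * w ^ e ≤ |c| * (w ^ (|a| + 2) + w ^ (-(|a| + 2))) :=
        mul_le_mul_of_nonneg_left h1 (abs_nonneg c)
      have h3 : 0 ≤ |c| * w ^ e := mul_nonneg (abs_nonneg c) (Real.rpow_nonneg hw.le e)
      calc |s| * (|c| * w ^ e) ≤ 1 * (|c| * w ^ e) := mul_le_mul_of_nonneg_right hs h3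
        _ = |c| * w ^ e := one_mul _
        _ ≤ _ := h2
    have habs1 : |a - 1| ≤ |a| + 2 := by
      rw [abs_le]
      constructor
      · have := neg_abs_le a
        linarith
      · have := le_abs_self a
        linarith
    have habs2 : |a - 1 - 1| ≤ |a| + 2 := by
      rw [abs_le]
      constructor
      · have := neg_abs_le a
        linarith
      · have := le_abs_self a
        linarith
    refine ⟨?_, ?_, ?_⟩
    · have h := key 1 a (by linarith)
      rw [one_mul, abs_one] at h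
      refine h.trans (mul_le_mul_of_nonneg_right ?_ hm0)
      have := abs_nonneg a
      have := abs_nonneg (a * (a - 1))
      linarith
    · have h := key a (a - 1) habs1
      refine h.trans (mul_le_mul_of_nonneg_right ?_ hm0)
      have := abs_nonneg (a * (a - 1))
      linarith
    · have h := key (a * (a - 1)) (a - 1 - 1) habs2
      rw [mul_assoc] at h
      refine h.trans (mul_le_mul_of_nonneg_right ?_ hm0)
      have h5 := abs_nonneg a
      linarith

lemma WW_pos {n N : ℕ} (hn : 0 < n) (A : Fin n → Fin N → ℝ) (z : Fin N → ℝ) : 0 < WW A z := by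
  unfold WW
  have : Nonempty (Fin n) := ⟨⟨0, hn⟩⟩
  exact Finset.sum_pos (fun i _ => Real.exp_pos _) Finset.univ_nonempty

/-- the law of the sum -/
lemma law_sum {n : ℕ} {Ω : Type} [MeasurableSpace Ω] (P : Measure Ω) (X : Fin n → Ω → ℝ)
    (hX : HasGaussianLaw (fun ω (i : Fin n) => X i ω) P)
    (hm : ∀ i, ∫ ω, X i ω ∂P = -(cov[X i, X i; P]) / 2) (A : Fin n → Fin n → ℝ)
    (hA : ∀ i j, ∑ k, A i k * A j k = cov[X i, X j; P])
    (hl : P.map (fun ω (i : Fin n) => X i ω) =
      (gam n).map (fun z (i : Fin n) => (∫ ω, X i ω ∂P) + ∑ k, A i k * z k)) (a : ℝ) :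
    ∫⁻ ω, (ENNReal.ofReal (∑ i, Real.exp (X i ω))) ^ a ∂P =
      ∫⁻ z, (ENNReal.ofReal (WW A z)) ^ a ∂gam n := by
  set H : (Fin n → ℝ) → ℝ≥0∞ := fun x => (ENNReal.ofReal (∑ i, Real.exp (x i))) ^ a with hH
  have hHm : Measurable H := by
    rw [hH]
    refine Measurable.pow_const (ENNReal.measurable_ofReal.comp ?_) a
    exact Finset.measurable_sum _ (fun i _ => (measurable_pi_apply i).exp)
  have h1 : ∫⁻ ω, (ENNReal.ofReal (∑ i, Real.exp (X i ω))) ^ a ∂P =
      ∫⁻ x, H x ∂(P.map (fun ω (i : Fin n) => X i ω)) := by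
    rw [lintegral_map' hHm.aemeasurable hX.aemeasurable]
  have hmz : Measurable (fun (z : Fin n → ℝ) (i : Fin n) => (∫ ω, X i ω ∂P) + ∑ k, A i k * z k) := by
    refine measurable_pi_lambda _ (fun i => ?_)
    refine measurable_const.add (Finset.measurable_sum _ (fun k _ => ?_))
    exact measurable_const.mul (measurable_pi_apply k)
  rw [h1, hl, lintegral_map hHm hmz]
  refine lintegral_congr (fun z => ?_)
  rw [hH]
  have h2 : (∑ i, Real.exp ((∫ ω, X i ω ∂P) + ∑ k, A i k * z k)) = WW A z := by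
    unfold WW ee
    refine Finset.sum_congr rfl (fun i _ => ?_)
    rw [hm i, ← hA i i]
    have h3 : ∑ k, A i k ^ 2 = ∑ k, A i k * A i k :=
      Finset.sum_congr rfl (fun k _ => by ring)
    rw [h3]
    ring_nf
  show (ENNReal.ofReal (∑ i, Real.exp ((∫ ω, X i ω ∂P) + ∑ k, A i k * z k))) ^ a = _
  rw [h2]

/-- conversion to a real integral -/
lemma lint_eq {n : ℕ} (hn : 0 < n) (A : Fin n → Fin n → ℝ) (a : ℝ)
    (hi : Integrable (fun z => (WW A z) ^ a) (gam n)) :
    ∫⁻ z, (ENNReal.ofReal (WW A z)) ^ a ∂gam n = ENNReal.ofReal (∫ z, (WW A z) ^ a ∂gam n) := by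
  rw [ofReal_integral_eq_lintegral_ofReal hi
    (ae_of_all _ (fun z => Real.rpow_nonneg (WW_pos hn A z).le a))]
  refine lintegral_congr (fun z => ?_)
  exact ENNReal.ofReal_rpow_of_pos (WW_pos hn A z)

theorem t_KFD : S_KREP → S_KMON → S_KFD := by
  intro hR hM n hn Ω Ω' _ _ P P' X Y hX hY hmX hmY hc a
  obtain ⟨A, hA, hlA⟩ := hR n Ω P X hX
  obtain ⟨B, hB, hlB⟩ := hR n Ω' P' Y hY
  rw [law_sum P X hX hmX A hA hlA a, law_sum P' Y hY hmY B hB hlB a]
  have hAB : ∀ i j, ∑ k, A i k * A j k ≤ ∑ k, B i k * B j k := by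
    intro i j
    rw [hA, hB]
    exact hc i j
  constructor
  · intro ha
    have hpos : ∀ w : ℝ, 0 < w → 0 ≤ (1 : ℝ) * (a * ((a - 1) * w ^ (a - 1 - 1))) := by
      intro w hw
      rw [one_mul, ← mul_assoc]
      refine mul_nonneg ?_ (Real.rpow_nonneg hw.le _)
      rcases ha with h | h
      · exact mul_nonneg (by linarith) (by linarith)
      · exact mul_nonneg_of_nonpos_of_nonpos h (by linarith)
    obtain ⟨h1, h2, h3⟩ := hM n n hn _ _ _ (good_pow 1 a (by rw [abs_one])) hpos A B hAB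
    simp only [one_mul] at h1 h2 h3
    rw [lint_eq hn A a h1, lint_eq hn B a h2]
    exact ENNReal.ofReal_le_ofReal h3
  · intro h0 h1'
    have hpos : ∀ w : ℝ, 0 < w → 0 ≤ (-1 : ℝ) * (a * ((a - 1) * w ^ (a - 1 - 1))) := by
      intro w hw
      have h5 : (-1 : ℝ) * (a * ((a - 1) * w ^ (a - 1 - 1))) = (a * (1 - a)) * w ^ (a - 1 - 1) := by
        ring
      rw [h5]
      refine mul_nonneg ?_ (Real.rpow_nonneg hw.le _)
      exact mul_nonneg h0 (by linarith)
    obtain ⟨h1, h2, h3⟩ := hM n n hn _ _ _ (good_pow (-1) a (by rw [abs_neg, abs_one])) hpos A B hAB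
    have e1 : (fun z => (-1 : ℝ) * (WW A z) ^ a) = fun z => -((WW A z) ^ a) := by
      funext z
      ring
    have e2 : (fun z => (-1 : ℝ) * (WW B z) ^ a) = fun z => -((WW B z) ^ a) := by
      funext z
      ring
    have h1 : Integrable (fun z => (-1 : ℝ) * (WW A z) ^ a) (gam n) := h1
    have h2 : Integrable (fun z => (-1 : ℝ) * (WW B z) ^ a) (gam n) := h2
    have h3 : ∫ z, (-1 : ℝ) * (WW A z) ^ a ∂gam n ≤ ∫ z, (-1 : ℝ) * (WW B z) ^ a ∂gam n := h3
    rw [e1] at h1 h3
    rw [e2] at h2 h3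
    have h1' : Integrable (fun z => (WW A z) ^ a) (gam n) := by
      have := h1.neg
      have e : (-(fun z => -((WW A z) ^ a)) : (Fin n → ℝ) → ℝ) = fun z => (WW A z) ^ a := by
        funext z
        simp
      rw [e] at this
      exact this
    have h2' : Integrable (fun z => (WW B z) ^ a) (gam n) := by
      have := h2.neg
      have e : (-(fun z => -((WW B z) ^ a)) : (Fin n → ℝ) → ℝ) = fun z => (WW B z) ^ a := by
        funext z
        simp
      rw [e] at this
      exact this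
    rw [integral_neg, integral_neg] at h3
    rw [lint_eq hn A a h1', lint_eq hn B a h2']
    exact ENNReal.ofReal_le_ofReal (by linarith)

end Pool.Agent.H980.CG.KFD
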