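import Pool.Agent.H629.CG.Stm

/-!
# Bounded Borel test functions
-/

set_option autoImplicit false

namespace Pool.Agent.H980.CG.M2

open MeasureTheory ProbabilityTheory Filter Topology Set
open scoped ENNReal NNReal
open Pool.Agent.H629.CG

/-- difference of the `toReal`s -/
lemma ofReal_diff (a b c : ℝ≥0∞) (h1 : a ≤ b + c) (h2 : b ≤ a + c) :
    ENNReal.ofReal |a.toReal - b.toReal| ≤ c := by
  by_cases hc : c = ∞
  · rw [hc]; exact le_top
  by_cases ha : a = ∞
  · have hb : b = ∞ := by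
      by_contra hb
      rw [ha] at h1
      exact (ENNReal.add_ne_top.2 ⟨hb, hc⟩) (top_le_iff.1 h1)
    rw [ha, hb]
    simp
  · have hb : b ≠ ∞ := by
      intro hb
      rw [hb] at h2
      exact (ENNReal.add_ne_top.2 ⟨ha, hc⟩) (top_le_iff.1 h2)
    have h1' := ENNReal.toReal_mono (ENNReal.add_ne_top.2 ⟨hb, hc⟩) h1
    have h2' := ENNReal.toReal_mono (ENNReal.add_ne_top.2 ⟨ha, hc⟩) h2
    rw [ENNReal.toReal_add hb hc] at h1'
    rw [ENNReal.toReal_add ha hc] at h2'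
    have h3 : |a.toReal - b.toReal| ≤ c.toReal := by
      rw [abs_le]
      constructor
      · linarith
      · linarith
    calc ENNReal.ofReal |a.toReal - b.toReal| ≤ ENNReal.ofReal c.toReal :=
          ENNReal.ofReal_le_ofReal h3
      _ = c := ENNReal.ofReal_toReal hc

/-- abstract estimate -/
lemma lip_est {Ω : Type} [MeasurableSpace Ω] (P : Measure Ω) [IsProbabilityMeasure P]
    (G : ℝ → ℝ) (L : ℝ≥0) (hG : LipschitzWith L G) (B : ℝ) (hB : ∀ x, |G x| ≤ B)
    (z1 z2 : Ω → ℝ≥0∞) (w : Ω → ℝ≥0∞) (hz1 : Measurable z1) (hz2 : Measurable z2)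
    (h1 : ∀ ω, z1 ω ≤ z2 ω + w ω) (h2 : ∀ ω, z2 ω ≤ z1 ω + w ω) (δ : ℝ) (hδ : 0 ≤ δ)
    (hw : ∫⁻ ω, w ω ∂P ≤ ENNReal.ofReal δ) :
    |∫ ω, G (z1 ω).toReal ∂P - ∫ ω, G (z2 ω).toReal ∂P| ≤ L * δ := by
  have hm : ∀ z : Ω → ℝ≥0∞, Measurable z → Integrable (fun ω => G (z ω).toReal) P := by
    intro z hz
    refine Integrable.of_bound ((hG.continuous.measurable.comp hz.ennreal_toReal).aestronglyMeasurable)
      B (ae_of_all _ (fun ω => ?_))
    rw [Real.norm_eq_abs]
    exact hB _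
  rw [← integral_sub (hm z1 hz1) (hm z2 hz2)]
  have h3 : ∫⁻ ω, ‖G (z1 ω).toReal - G (z2 ω).toReal‖ₑ ∂P ≤ ENNReal.ofReal (L * δ) := by
    calc ∫⁻ ω, ‖G (z1 ω).toReal - G (z2 ω).toReal‖ₑ ∂P ≤ ∫⁻ ω, (L : ℝ≥0∞) * w ω ∂P := by
          refine lintegral_mono (fun ω => ?_)
          have h4 : ‖G (z1 ω).toReal - G (z2 ω).toReal‖ ≤ L * |(z1 ω).toReal - (z2 ω).toReal| := by
            have := hG.dist_le_mul (z1 ω).toReal (z2 ω).toReal
            rwa [Real.dist_eq, Real.dist_eq, ← Real.norm_eq_abs] at this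
          show ‖G (z1 ω).toReal - G (z2 ω).toReal‖ₑ ≤ (L : ℝ≥0∞) * w ω
          rw [← ofReal_norm]
          calc ENNReal.ofReal ‖G (z1 ω).toReal - G (z2 ω).toReal‖
              ≤ ENNReal.ofReal (L * |(z1 ω).toReal - (z2 ω).toReal|) :=
                ENNReal.ofReal_le_ofReal h4
            _ = (L : ℝ≥0∞) * ENNReal.ofReal |(z1 ω).toReal - (z2 ω).toReal| := by
                rw [ENNReal.ofReal_mul L.coe_nonneg, ENNReal.ofReal_coe_nnreal]
            _ ≤ (L : ℝ≥0∞) * w ω := mul_le_mul_right (ofReal_diff _ _ _ (h1 ω) (h2 ω)) _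
      _ ≤ (L : ℝ≥0∞) * ENNReal.ofReal δ := by
          rw [lintegral_const_mul' _ _ ENNReal.coe_ne_top]
          exact mul_le_mul_right hw _
      _ = ENNReal.ofReal (L * δ) := by
          rw [ENNReal.ofReal_mul L.coe_nonneg, ENNReal.ofReal_coe_nnreal]
  have h5 : ‖∫ ω, (G (z1 ω).toReal - G (z2 ω).toReal) ∂P‖ₑ ≤ ENNReal.ofReal (L * δ) :=
    (enorm_integral_le_lintegral_enorm _).trans h3
  rw [← ofReal_norm] at h5
  have h6 := (ENNReal.ofReal_le_ofReal_iff (mul_nonneg L.coe_nonneg hδ)).1 h5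
  rwa [Real.norm_eq_abs] at h6

/-- measurability of the mass -/
lemma meas_mass {Ω : Type} [MeasurableSpace Ω] (X : ℝ → Ω → ℝ)
    (hX : Measurable (Function.uncurry X)) (h : ℝ → ℝ) (hh : Measurable h) :
    Measurable (fun ω => mass (Ico 0 1) h X ω) := by
  unfold mass
  have h1 : Measurable (fun p : ℝ × Ω => ENNReal.ofReal (h p.1 * Real.exp (X p.1 p.2))) := by
    refine ENNReal.measurable_ofReal.comp ?_
    exact (hh.comp measurable_fst).mul (Real.measurable_exp.comp hX)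
  exact h1.lintegral_prod_left'

/-- approximation by a continuous function -/
lemma approx (g : ℝ → ℝ) (hg : Measurable g) (h0 : ∀ u, 0 ≤ g u) (B : ℝ) (hB : ∀ u, g u ≤ B)
    (δ : ℝ) (hδ : 0 < δ) : ∃ ψ : ℝ → ℝ, Continuous ψ ∧ (∀ u, 0 ≤ ψ u) ∧
      ∫⁻ u in Icc (0 : ℝ) 1, ENNReal.ofReal |g u - ψ u| ≤ ENNReal.ofReal δ := by
  have hi : Integrable g (volume.restrict (Icc (0 : ℝ) 1)) := by
    refine Integrable.of_bound hg.aestronglyMeasurable B (ae_of_all _ (fun u => ?_))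
    rw [Real.norm_eq_abs, abs_of_nonneg (h0 u)]
    exact hB u
  obtain ⟨φ, _, h2, h3, _⟩ := hi.exists_hasCompactSupport_lintegral_sub_le
    (ε := ENNReal.ofReal δ) (ENNReal.ofReal_pos.2 hδ).ne'
  refine ⟨fun u => max (φ u) 0, h3.max continuous_const, fun u => le_max_right _ _, ?_⟩
  refine le_trans (lintegral_mono (fun u => ?_)) h2
  show ENNReal.ofReal |g u - max (φ u) 0| ≤ ‖g u - φ u‖ₑ
  rw [← ofReal_norm, Real.norm_eq_abs]
  refine ENNReal.ofReal_le_ofReal ?_
  have h5 := h0 u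
  rcases le_total (φ u) 0 with h | h
  · rw [max_eq_right h, sub_zero, abs_of_nonneg h5, abs_of_nonneg (by linarith)]
    linarith
  · rw [max_eq_left h]

lemma ofReal_tri (x y : ℝ) : ENNReal.ofReal x ≤ ENNReal.ofReal y + ENNReal.ofReal |x - y| := by
  refine le_trans (ENNReal.ofReal_le_ofReal ?_) ENNReal.ofReal_add_le
  have := le_abs_self (x - y)
  linarith

lemma mass_tri {Ω : Type} [MeasurableSpace Ω] (X : ℝ → Ω → ℝ)
    (hX : Measurable (Function.uncurry X)) (h k : ℝ → ℝ) (hh : Measurable h) (hk : Measurable k)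
    (ω : Ω) : mass (Ico 0 1) h X ω ≤ mass (Ico 0 1) k X ω +
      mass (Ico 0 1) (fun u => |h u - k u|) X ω := by
  unfold mass
  have hXω : Measurable (fun u => X u ω) := hX.comp (measurable_id.prodMk measurable_const)
  have hm : Measurable (fun u => ENNReal.ofReal (k u * Real.exp (X u ω))) :=
    ENNReal.measurable_ofReal.comp (hk.mul (Real.measurable_exp.comp hXω))
  rw [← lintegral_add_left hm]
  refine lintegral_mono (fun u => ?_)
  refine (ofReal_tri _ (k u * Real.exp (X u ω))).trans ?_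
  refine add_le_add le_rfl (ENNReal.ofReal_le_ofReal ?_)
  rw [← sub_mul, abs_mul, abs_of_pos (Real.exp_pos _)]

/-- expectation of the mass -/
lemma mean_mass {Ω : Type} [MeasurableSpace Ω] (P : Measure Ω) [IsProbabilityMeasure P]
    (X : ℝ → Ω → ℝ) (hX : Measurable (Function.uncurry X))
    (hmean : ∀ u ∈ Ico (0 : ℝ) 1, ∫⁻ ω, ex (X u ω) ∂P = 1) (h : ℝ → ℝ) (hh : Measurable h)
    (h0 : ∀ u, 0 ≤ h u) :
    ∫⁻ ω, mass (Ico 0 1) h X ω ∂P = ∫⁻ u in Ico (0 : ℝ) 1, ENNReal.ofReal (h u) := by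
  unfold mass
  rw [lintegral_lintegral_swap]
  · refine setLIntegral_congr_fun measurableSet_Ico (fun u hu => ?_)
    show ∫⁻ ω, ENNReal.ofReal (h u * Real.exp (X u ω)) ∂P = ENNReal.ofReal (h u)
    have h1 : ∀ ω, ENNReal.ofReal (h u * Real.exp (X u ω)) = ENNReal.ofReal (h u) * ex (X u ω) := by
      intro ω
      unfold ex
      rw [ENNReal.ofReal_mul (h0 u)]
    simp_rw [h1]
    rw [lintegral_const_mul' _ _ ENNReal.ofReal_ne_top, hmean u hu, mul_one]
  · have h1 : Measurable (fun p : Ω × ℝ => ENNReal.ofReal (h p.2 * Real.exp (X p.2 p.1))) := by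
      refine ENNReal.measurable_ofReal.comp ?_
      exact (hh.comp measurable_snd).mul (Real.measurable_exp.comp (hX.comp measurable_swap))
    exact h1.aemeasurable

theorem t_M2 : S_M1 → S_LIP → S_M2 := by
  intro hM1 hLIP ε₀ Ω _ P X Ω' _ P' _ M hε₀ hMn hlim g hg hg0 hgB
  obtain ⟨B, hB⟩ := hgB
  have hIg : Measurable (fun u => ENNReal.ofReal (g u)) := ENNReal.measurable_ofReal.comp hg
  refine hLIP ε₀ Ω P _ Ω' P' _ hε₀ ?_ ?_ ?_
  · intro ε hε
    refine ⟨hMn.prob ε hε, ?_⟩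
    exact (meas_mass (X ε) (hMn.meas ε hε) g hg).ennreal_toReal.aemeasurable
  · exact ((Measure.measurable_lintegral hIg).comp hlim.meas).ennreal_toReal.aemeasurable
  · rintro G ⟨L, hL⟩ ⟨B0, hB0⟩
    rw [Metric.tendsto_nhds]
    intro η hη
    set δ : ℝ := η / (4 * ((L : ℝ) + 1)) with hδdef
    have hL0 : (0 : ℝ) ≤ L := L.coe_nonneg
    have hδ : 0 < δ := by positivity
    have hLδ : (L : ℝ) * δ ≤ η / 4 := by
      rw [hδdef]
      have : (L : ℝ) * (η / (4 * ((L : ℝ) + 1))) = (η / 4) * ((L : ℝ) / ((L : ℝ) + 1)) := by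
        field_simp
      rw [this]
      have h2 : (L : ℝ) / ((L : ℝ) + 1) ≤ 1 := by
        rw [div_le_one (by positivity)]
        linarith
      calc (η / 4) * ((L : ℝ) / ((L : ℝ) + 1)) ≤ (η / 4) * 1 :=
            mul_le_mul_of_nonneg_left h2 (by positivity)
        _ = η / 4 := mul_one _
    obtain ⟨ψ, hψc, hψ0, hψ⟩ := approx g hg hg0 B hB δ hδ
    have hψm : Measurable ψ := hψc.measurable
    have hIψ : Measurable (fun u => ENNReal.ofReal (ψ u)) := ENNReal.measurable_ofReal.comp hψm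
    have hdm : Measurable (fun u => |g u - ψ u|) := (hg.sub hψm).abs
    have hdm' : Measurable (fun u => ENNReal.ofReal |g u - ψ u|) :=
      ENNReal.measurable_ofReal.comp hdm
    have habs : ∀ u, |ψ u - g u| = |g u - ψ u| := fun u => abs_sub_comm _ _
    -- the approximation of the fields
    have hfield : ∀ ε ∈ Ioo 0 ε₀, |∫ ω, G (mass (Ico 0 1) g (X ε) ω).toReal ∂(P ε) -
        ∫ ω, G (mass (Ico 0 1) ψ (X ε) ω).toReal ∂(P ε)| ≤ L * δ := by
      intro ε hε
      have := hMn.prob ε hε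
      refine lip_est (P ε) G L hL B0 hB0 _ _ (mass (Ico 0 1) (fun u => |g u - ψ u|) (X ε))
        (meas_mass (X ε) (hMn.meas ε hε) g hg) (meas_mass (X ε) (hMn.meas ε hε) ψ hψm)
        (fun ω => mass_tri (X ε) (hMn.meas ε hε) g ψ hg hψm ω) (fun ω => ?_) δ hδ.le ?_
      · have h := mass_tri (X ε) (hMn.meas ε hε) ψ g hψm hg ω
        simp_rw [habs] at h
        exact h
      · rw [mean_mass (P ε) (X ε) (hMn.meas ε hε) (hMn.mean ε hε) _ hdm (fun u => abs_nonneg _)]
        exact (lintegral_mono_set Ico_subset_Icc_self).trans hψ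
    -- the approximation of the limit
    have hlimit : |∫ ω, G (∫⁻ u, ENNReal.ofReal (g u) ∂(M ω)).toReal ∂P' -
        ∫ ω, G (∫⁻ u, ENNReal.ofReal (ψ u) ∂(M ω)).toReal ∂P'| ≤ L * δ := by
      refine lip_est P' G L hL B0 hB0 _ _ (fun ω => ∫⁻ u, ENNReal.ofReal |g u - ψ u| ∂(M ω))
        ((Measure.measurable_lintegral hIg).comp hlim.meas)
        ((Measure.measurable_lintegral hIψ).comp hlim.meas) (fun ω => ?_) (fun ω => ?_) δ hδ.le ?_
      · show ∫⁻ u, ENNReal.ofReal (g u) ∂(M ω) ≤ ∫⁻ u, ENNReal.ofReal (ψ u) ∂(M ω) +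
          ∫⁻ u, ENNReal.ofReal |g u - ψ u| ∂(M ω)
        rw [← lintegral_add_left hIψ]
        exact lintegral_mono (fun u => ofReal_tri _ _)
      · show ∫⁻ u, ENNReal.ofReal (ψ u) ∂(M ω) ≤ ∫⁻ u, ENNReal.ofReal (g u) ∂(M ω) +
          ∫⁻ u, ENNReal.ofReal |g u - ψ u| ∂(M ω)
        rw [← lintegral_add_left hIg]
        refine lintegral_mono (fun u => ?_)
        have := ofReal_tri (ψ u) (g u)
        rw [habs u] at this
        exact this
      · exact (hM1 ε₀ Ω P X Ω' P' M hε₀ hMn hlim _ hdm').trans hψ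
    -- the convergence for the continuous function
    have hcont := hlim.lim ψ hψc hψ0 G hL.continuous ⟨B0, hB0⟩
    rw [Metric.tendsto_nhds] at hcont
    have hev := hcont (η / 4) (by positivity)
    have hev2 : ∀ᶠ ε in 𝓝[>] (0 : ℝ), ε ∈ Ioo 0 ε₀ := Ioo_mem_nhdsGT hε₀
    filter_upwards [hev, hev2] with ε h1 hε
    have e1 : ∀ ω, ∫ u in Icc (0 : ℝ) 1, ψ u * Real.exp (X ε u ω) =
        (mass (Ico 0 1) ψ (X ε) ω).toReal := by
      intro ω
      have hXω : Measurable (fun u => X ε u ω) :=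
        (hMn.meas ε hε).comp (measurable_id.prodMk measurable_const)
      unfold mass
      rw [integral_Icc_eq_integral_Ico, integral_eq_lintegral_of_nonneg_ae
        (ae_of_all _ (fun u => mul_nonneg (hψ0 u) (Real.exp_pos _).le))
        (hψm.mul (Real.measurable_exp.comp hXω)).aestronglyMeasurable]
    have e2 : ∀ ω, ∫ u, ψ u ∂(M ω) = (∫⁻ u, ENNReal.ofReal (ψ u) ∂(M ω)).toReal := by
      intro ω
      rw [integral_eq_lintegral_of_nonneg_ae (ae_of_all _ hψ0) hψm.aestronglyMeasurable]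
    simp_rw [e1, e2] at h1
    rw [Real.dist_eq] at h1 ⊢
    have h2 := hfield ε hε
    have h3 := hlimit
    have h4 := abs_le.1 (h2.trans hLδ)
    have h5 := abs_le.1 (h3.trans hLδ)
    have h6 := abs_lt.1 h1
    rw [abs_lt]
    constructor
    · linarith [h4.1, h4.2, h5.1, h5.2, h6.1, h6.2]
    · linarith [h4.1, h4.2, h5.1, h5.2, h6.1, h6.2]

end Pool.Agent.H980.CG.M2
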